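import Mathlib

set_option autoImplicit false

/-!
# Standard identities of a triangular algebra
-/

namespace Pool.Agent.X227.EqM

open Matrix

universe u

theorem prod_path {ι : Type} {P : Type u} [Fintype ι] [DecidableEq ι] [CommRing P] :
    ∀ (n : ℕ) (x : Fin n → Matrix ι ι P) (i j : ι),
      (List.ofFn x).prod i j = ∑ p : Fin (n + 1) → ι,
        if p 0 = i ∧ p (Fin.last n) = j then ∏ k : Fin n, x k (p k.castSucc) (p k.succ)
        else 0 := by
  intro n
  induction n with
  | zero =>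
    intro x i j
    rw [List.ofFn_zero, List.prod_nil]
    rw [← (Equiv.funUnique (Fin 1) ι).symm.sum_comp]
    simp only [Finset.univ_eq_empty, Finset.prod_empty]
    rw [Finset.sum_eq_single i]
    · simp [Matrix.one_apply]
    · intro b _ hb
      simp [hb]
    · intro h
      exact absurd (Finset.mem_univ _) h
  | succ n ih =>
    intro x i j
    rw [List.ofFn_succ, List.prod_cons, Matrix.mul_apply]
    rw [← (Fin.consEquiv (fun _ : Fin (n + 2) => ι)).sum_comp, Fintype.sum_prod_type,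
      Finset.sum_comm]
    have h1 : ∀ l, x 0 i l * (List.ofFn fun k : Fin n => x k.succ).prod l j =
        ∑ p : Fin (n + 1) → ι, if p 0 = l then (if p (Fin.last n) = j then
          x 0 i l * ∏ k : Fin n, x k.succ (p k.castSucc) (p k.succ) else 0) else 0 := by
      intro l
      rw [ih, Finset.mul_sum]
      refine Finset.sum_congr rfl fun p _ => ?_
      by_cases h0 : p 0 = l <;> by_cases h1 : p (Fin.last n) = j <;> simp [h0, h1]
    simp only [h1]
    rw [Finset.sum_comm]
    refine Finset.sum_congr rfl fun p _ => ?_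
    rw [Finset.sum_ite_eq Finset.univ (p 0), if_pos (Finset.mem_univ _)]
    symm
    rw [Finset.sum_eq_single i]
    · simp only [Fin.consEquiv_apply, Fin.cons_zero, true_and]
      rw [Fin.prod_univ_succ]
      congr 1
    · intro b _ hb
      rw [if_neg]
      rintro ⟨h, _⟩
      exact hb h
    · intro h
      exact absurd (Finset.mem_univ _) h

/-- the alternating sum of the products -/
theorem alt_path {ι : Type} {P : Type u} [Fintype ι] [DecidableEq ι] [CommRing P] (n : ℕ)
    (x : Fin n → Matrix ι ι P)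
    (h : ∀ p : Fin (n + 1) → ι,
      (Matrix.of fun l k : Fin n => x l (p k.castSucc) (p k.succ)).det = 0) :
    ∑ σ : Equiv.Perm (Fin n), ((Equiv.Perm.sign σ : ℤˣ) : ℤ) • (List.ofFn (x ∘ σ)).prod = 0 := by
  ext i j
  rw [Matrix.sum_apply, Matrix.zero_apply]
  have h1 : ∀ σ : Equiv.Perm (Fin n),
      (((Equiv.Perm.sign σ : ℤˣ) : ℤ) • (List.ofFn (x ∘ σ)).prod) i j =
      ∑ p : Fin (n + 1) → ι, if p 0 = i ∧ p (Fin.last n) = j then
        ((Equiv.Perm.sign σ : ℤˣ) : ℤ) • ∏ k : Fin n, x (σ k) (p k.castSucc) (p k.succ)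
        else 0 := by
    intro σ
    rw [Matrix.smul_apply, prod_path, Finset.smul_sum]
    refine Finset.sum_congr rfl fun p _ => ?_
    split_ifs
    · rfl
    · exact smul_zero _
  simp only [h1]
  rw [Finset.sum_comm]
  refine Finset.sum_eq_zero fun p _ => ?_
  by_cases hp : p 0 = i ∧ p (Fin.last n) = j
  · simp only [hp, and_self, if_true]
    have := h p
    rw [Matrix.det_apply] at this
    exact this
  · simp [hp]

/-- The triangular matrices. -/
def Tri {P : Type u} [CommRing P] (A : Matrix (Fin 4) (Fin 4) P) : Prop :=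
  ∀ i j : Fin 4, (j < i ∨ (i = j ∧ (i = 0 ∨ i = 3))) → A i j = 0

theorem std_tri {P : Type u} [CommRing P] {n : ℕ} (hn : 6 ≤ n)
    (x : Fin n → Matrix (Fin 4) (Fin 4) P) (hx : ∀ k, Tri (x k)) :
    ∑ σ : Equiv.Perm (Fin n), ((Equiv.Perm.sign σ : ℤˣ) : ℤ) • (List.ofFn (x ∘ σ)).prod = 0 := by
  refine alt_path n x fun p => ?_
  by_contra hd
  -- no step vanishes
  have h1 : ∀ k : Fin n, ¬ (p k.succ < p k.castSucc ∨
      (p k.castSucc = p k.succ ∧ (p k.castSucc = 0 ∨ p k.castSucc = 3))) := by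
    intro k hk
    apply hd
    refine Matrix.det_eq_zero_of_column_eq_zero k fun l => ?_
    exact hx l _ _ hk
  have h2 : ∀ k l : Fin n, k ≠ l → ¬ (p k.castSucc = p l.castSucc ∧ p k.succ = p l.succ) := by
    rintro k l hkl ⟨e1, e2⟩
    apply hd
    refine Matrix.det_zero_of_column_eq hkl fun i => ?_
    simp only [Matrix.of_apply, e1, e2]
  have h3 : ∀ k : ℕ, ∀ hk : k < n, k + 1 ≤ (p ⟨k, by omega⟩ : ℕ) + p ⟨k + 1, by omega⟩ := by
    intro k
    induction k with
    | zero =>
      intro hk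
      have := h1 ⟨0, hk⟩
      simp only [Fin.castSucc_mk, Fin.succ_mk, not_or, not_lt, not_and, Fin.le_def,
        Fin.ext_iff] at this
      obtain ⟨a, b⟩ := this
      by_contra hc
      have e0 : (p ⟨0, by omega⟩ : ℕ) = 0 := by omega
      have e1 : (p ⟨0 + 1, by omega⟩ : ℕ) = 0 := by omega
      exact (b (by rw [e0, e1])).1 (by rw [e0]; rfl)
    | succ k ih =>
      intro hk
      have a1 := ih (by omega)
      have b1 := h1 ⟨k, by omega⟩
      have b2 := h1 ⟨k + 1, hk⟩
      have b3 := h2 ⟨k, by omega⟩ ⟨k + 1, hk⟩ (by simp [Fin.ext_iff])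
      simp only [Fin.castSucc_mk, Fin.succ_mk, not_or, not_lt, not_and, Fin.le_def,
        Fin.ext_iff] at b1 b2 b3
      obtain ⟨c1, _⟩ := b1
      obtain ⟨c2, _⟩ := b2
      by_contra hc
      have e : (p ⟨k, by omega⟩ : ℕ) = p ⟨k + 1 + 1, by omega⟩ := by omega
      exact b3 (by omega) (by omega)
  have h4 := h3 (n - 1) (by omega)
  have h5 := h1 ⟨n - 1, by omega⟩
  simp only [Fin.castSucc_mk, Fin.succ_mk, not_or, not_lt, not_and, Fin.le_def,
    Fin.ext_iff] at h5
  obtain ⟨d1, d2⟩ := h5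
  have f1 := (p ⟨n - 1, by omega⟩).2
  have f2 := (p ⟨n - 1 + 1, by omega⟩).2
  have g1 : (p ⟨n - 1, by omega⟩ : ℕ) = 3 := by omega
  have g2 : (p ⟨n - 1 + 1, by omega⟩ : ℕ) = 3 := by omega
  exact (d2 (by rw [g1, g2])).2 (by rw [g1]; rfl)

end Pool.Agent.X227.EqM
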