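import Pool.Agent.X227.EqM.Der

set_option autoImplicit false

/-!
# A quotient of an algebra of matrices
-/

namespace Pool.Agent.X227.EqM

open Pool.Agent.X238.Osr Matrix

universe u

/-- states -/
inductive Sx (Nd : Type) : Type
  | q (a : Nd)
  | p (a : Nd)
  | h

noncomputable instance (Nd : Type) : DecidableEq (Sx Nd) := Classical.decEq _

/-- degrees -/
abbrev Dg (Nd : Type) (K : ℕ) : Type :=
  (Sx Nd → ℕ) × (Fin (K + 1) → ℕ) × (Fin (K + 1) → ℕ)

/-- polynomials -/
abbrev Pl (F : Type u) [Field F] (Nd : Type) (K : ℕ) : Type u := AddMonoidAlgebra F (Dg Nd K)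

variable {F : Type u} [Field F] {Nd : Type} {K : ℕ} (M : AM Nd K)

variable (F) in
/-- monomials -/
noncomputable def mon (d : Dg Nd K) : Pl F Nd K := AddMonoidAlgebra.single d 1

theorem mon_mul (d e : Dg Nd K) : mon F d * mon F e = mon F (d + e) := by
  simp [mon, AddMonoidAlgebra.single_mul_single]

theorem mon_zero : mon F (0 : Dg Nd K) = 1 := rfl

/-- the configurations from which the machine halts -/
def Gd : Sx Nd → (Fin (K + 1) → ℕ) → (Fin (K + 1) → ℕ) → Prop
  | .q a, n, m => M.Hlt a (n + m)
  | .p a, n, m => M.Hlt (M.ns a m) (n + M.nr a m)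
  | .h, _, _ => True

/-- degrees that correspond to halting configurations -/
def good (d : Dg Nd K) : Prop := ∃ s, d.1 = Pi.single s 1 ∧ Gd M s d.2.1 d.2.2

variable (F) in
open Classical in
/-- the linear form -/
noncomputable def Ph : Pl F Nd K →ₗ[F] F where
  toFun p := Finsupp.linearCombination F (fun d => if good M d then (1 : F) else 0) p.coeff
  map_add' p q := by simp
  map_smul' c p := by simp

open Classical in
theorem Ph_mon (d : Dg Nd K) : Ph F M (mon F d) = if good M d then 1 else 0 := by
  simp only [Ph, mon, LinearMap.coe_mk, AddHom.coe_mk]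
  rw [show (AddMonoidAlgebra.single d (1 : F)).coeff = Finsupp.single d 1 from rfl,
    Finsupp.linearCombination_single, one_smul]

variable (F) in
/-- span of monomials -/
noncomputable def Sp (T : Set (Dg Nd K)) : Submodule F (Pl F Nd K) :=
  Submodule.span F (mon F '' T)

theorem mon_mem {T : Set (Dg Nd K)} {d : Dg Nd K} (h : d ∈ T) : mon F d ∈ Sp F T :=
  Submodule.subset_span ⟨d, h, rfl⟩

theorem Sp_mul {T T' : Set (Dg Nd K)} {d : Dg Nd K} (h : ∀ e ∈ T, e + d ∈ T')
    {p : Pl F Nd K} (hp : p ∈ Sp F T) : p * mon F d ∈ Sp F T' := by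
  unfold Sp at hp
  induction hp using Submodule.span_induction with
  | mem x hx =>
    obtain ⟨e, he, rfl⟩ := hx
    rw [mon_mul]
    exact mon_mem (h e he)
  | zero => rw [zero_mul]; exact Submodule.zero_mem _
  | add x y _ _ hx hy => rw [add_mul]; exact Submodule.add_mem _ hx hy
  | smul c x _ hx => rw [smul_mul_assoc]; exact Submodule.smul_mem _ _ hx

theorem Ph_congr {T T' : Set (Dg Nd K)} {d1 d2 : Dg Nd K}
    (h : ∀ e ∈ T, ∀ e' ∈ T', (good M (e + d1 + e') ↔ good M (e + d2 + e')))
    {p q : Pl F Nd K} (hp : p ∈ Sp F T) (hq : q ∈ Sp F T') :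
    Ph F M (p * mon F d1 * q) = Ph F M (p * mon F d2 * q) := by
  classical
  unfold Sp at hp hq
  induction hp using Submodule.span_induction with
  | mem x hx =>
    obtain ⟨e, he, rfl⟩ := hx
    induction hq using Submodule.span_induction with
    | mem y hy =>
      obtain ⟨e', he', rfl⟩ := hy
      rw [mon_mul, mon_mul, mon_mul, mon_mul, Ph_mon, Ph_mon, h e he e' he']
    | zero => simp
    | add x y _ _ hx hy => rw [mul_add, mul_add, map_add, map_add, hx, hy]
    | smul c x _ hx => rw [mul_smul_comm, mul_smul_comm, map_smul, map_smul, hx]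
  | zero => simp
  | add x y _ _ hx hy => rw [add_mul, add_mul, add_mul, add_mul, map_add, map_add, hx, hy]
  | smul c x _ hx =>
    rw [smul_mul_assoc, smul_mul_assoc, smul_mul_assoc, smul_mul_assoc, map_smul, map_smul, hx]

section stab

variable {ι : Type} [Fintype ι] [DecidableEq ι] {P : Type u} [CommRing P] [Algebra F P]

/-- matrices that preserve a space of rows -/
def stR (N : ι → Submodule F P) : Subalgebra F (Matrix ι ι P) where
  carrier := {A | ∀ w : ι → P, (∀ i, w i ∈ N i) → ∀ j, (w ᵥ* A) j ∈ N j}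
  mul_mem' {A B} hA hB w hw j := by
    rw [← vecMul_vecMul]
    exact hB _ (hA w hw) j
  add_mem' {A B} hA hB w hw j := by
    rw [vecMul_add]
    exact (N j).add_mem (hA w hw j) (hB w hw j)
  algebraMap_mem' c w hw j := by
    rw [Algebra.algebraMap_eq_smul_one, vecMul_smul, vecMul_one]
    exact (N j).smul_mem c (hw j)

/-- matrices that preserve a space of columns -/
def stL (N : ι → Submodule F P) : Subalgebra F (Matrix ι ι P) where
  carrier := {A | ∀ w : ι → P, (∀ i, w i ∈ N i) → ∀ j, (A *ᵥ w) j ∈ N j}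
  mul_mem' {A B} hA hB w hw j := by
    rw [← mulVec_mulVec]
    exact hA _ (hB w hw) j
  add_mem' {A B} hA hB w hw j := by
    rw [add_mulVec]
    exact (N j).add_mem (hA w hw j) (hB w hw j)
  algebraMap_mem' c w hw j := by
    rw [Algebra.algebraMap_eq_smul_one, smul_mulVec, one_mulVec]
    exact (N j).smul_mem c (hw j)

end stab

end Pool.Agent.X227.EqM
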