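import Pool.Agent.X238.Osr.Mach

set_option autoImplicit false

/-!
# Relations that simulate a register machine
-/

namespace Pool.Agent.X227.EqM

open Pool.Agent.X238.Osr

/-- generators -/
inductive Gn (Nd : Type) (K : ℕ) : Type
  | L
  | R
  | h
  | x (i : Fin (K + 1))
  | y (i : Fin (K + 1))
  | q (a : Nd)
  | p (a : Nd)

variable {Nd : Type} {K : ℕ} (M : AM Nd K)

/-- what a unit of the tested register is replaced with -/
def op1 : Op → Fin (K + 1) → List (Fin (K + 1))
  | .keep, j => [j]
  | .inc, j => [j, j]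
  | .dec, _ => []

/-- what is written when the tested register is empty -/
def op0 : Op → Fin (K + 1) → List (Fin (K + 1))
  | .inc, j => [j]
  | _, _ => []

/-- the relations -/
def rels : Set (List (Gn Nd K) × List (Gn Nd K)) :=
  (Set.range fun t : Nd × Fin (K + 1) => ([.x t.2, .q t.1], [.q t.1, .y t.2])) ∪
  ((Set.range fun t : Fin (K + 1) × Fin (K + 1) => ([.y t.1, .y t.2], [.y t.2, .y t.1])) ∪
  (((fun a : Nd => ([.L, .q a], [.L, .p a])) '' {a | M.hl a = false}) ∪
  (((fun t : Nd × Fin (K + 1) => ([.x t.2, .p t.1], [.p t.1, .y t.2])) ''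
      {t | t.2 ≠ M.q t.1}) ∪
  (((fun a : Nd => ([.p a, .y (M.q a)],
      .q (M.nx a false) :: (op1 (M.op a) (M.q a)).map .y)) '' {a | M.hl a = false}) ∪
  (((fun a : Nd => ([.p a, .R],
      .q (M.nx a true) :: ((op0 (M.op a) (M.q a)).map .y ++ [.R]))) '' {a | M.hl a = false}) ∪
  (((fun a : Nd => ([.q a], [.h])) '' {a | M.hl a = true}) ∪
  (Set.range fun i : Fin (K + 1) => ([.h, .y i], [.h]))))))))

theorem rels_finite [Finite Nd] : (rels M).Finite :=
  (Set.finite_range _).union <| (Set.finite_range _).union <|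
    ((Set.toFinite _).image _).union <| ((Set.toFinite _).image _).union <|
    ((Set.toFinite _).image _).union <| ((Set.toFinite _).image _).union <|
    ((Set.toFinite _).image _).union (Set.finite_range _)

theorem rels_ne {w : List (Gn Nd K) × List (Gn Nd K)} (h : w ∈ rels M) : w.1 ≠ [] ∧ w.2 ≠ [] := by
  simp only [rels, Set.mem_union, Set.mem_range, Set.mem_image] at h
  rcases h with ⟨_, rfl⟩ | ⟨_, rfl⟩ | ⟨_, _, rfl⟩ | ⟨_, _, rfl⟩ | ⟨_, _, rfl⟩ | ⟨_, _, rfl⟩ |
    ⟨_, _, rfl⟩ | ⟨_, rfl⟩ <;> simp

section der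

variable {A : Type*} [Monoid A] (v : Gn Nd K → A)

/-- value of a word -/
def ev (w : List (Gn Nd K)) : A := (w.map v).prod

theorem ev_append (w w' : List (Gn Nd K)) : ev v (w ++ w') = ev v w * ev v w' := by
  simp [ev]

theorem ev_cons (g : Gn Nd K) (w : List (Gn Nd K)) : ev v (g :: w) = v g * ev v w := by
  simp [ev]

theorem ev_nil : ev v ([] : List (Gn Nd K)) = 1 := rfl

variable {v} (hv : ∀ w ∈ rels M, ev v w.1 = ev v w.2)

include hv

theorem r_xq (a : Nd) (i : Fin (K + 1)) : v (.x i) * v (.q a) = v (.q a) * v (.y i) := by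
  have := hv ([.x i, .q a], [.q a, .y i]) (.inl ⟨(a, i), rfl⟩)
  simpa [ev] using this

theorem r_yy (i j : Fin (K + 1)) : v (.y i) * v (.y j) = v (.y j) * v (.y i) := by
  have := hv ([.y i, .y j], [.y j, .y i]) (.inr (.inl ⟨(i, j), rfl⟩))
  simpa [ev] using this

theorem r_Lq (a : Nd) (h : M.hl a = false) : v .L * v (.q a) = v .L * v (.p a) := by
  have := hv ([.L, .q a], [.L, .p a]) (.inr (.inr (.inl ⟨a, h, rfl⟩)))
  simpa [ev] using this

theorem r_xp (a : Nd) (i : Fin (K + 1)) (h : i ≠ M.q a) :
    v (.x i) * v (.p a) = v (.p a) * v (.y i) := by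
  have := hv ([.x i, .p a], [.p a, .y i]) (.inr (.inr (.inr (.inl ⟨(a, i), h, rfl⟩))))
  simpa [ev] using this

theorem r_nz (a : Nd) (h : M.hl a = false) :
    v (.p a) * v (.y (M.q a)) = v (.q (M.nx a false)) *
      ev v ((op1 (M.op a) (M.q a)).map .y) := by
  have := hv _ (.inr (.inr (.inr (.inr (.inl ⟨a, h, rfl⟩)))))
  simpa [ev] using this

theorem r_z (a : Nd) (h : M.hl a = false) :
    v (.p a) * v .R = v (.q (M.nx a true)) *
      (ev v ((op0 (M.op a) (M.q a)).map .y) * v .R) := by
  have := hv _ (.inr (.inr (.inr (.inr (.inr (.inl ⟨a, h, rfl⟩))))))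
  simpa [ev] using this

theorem r_qh (a : Nd) (h : M.hl a = true) : v (.q a) = v .h := by
  have := hv ([.q a], [.h]) (.inr (.inr (.inr (.inr (.inr (.inr (.inl ⟨a, h, rfl⟩)))))))
  simpa [ev] using this

theorem r_hy (i : Fin (K + 1)) : v .h * v (.y i) = v .h := by
  have := hv ([.h, .y i], [.h]) (.inr (.inr (.inr (.inr (.inr (.inr (.inr ⟨i, rfl⟩)))))))
  simpa [ev] using this

/-- content of the registers -/
def Ct (l : List (Fin (K + 1))) (n : Fin (K + 1) → ℕ) : Prop := ∀ i, l.count i = n i

theorem ys_perm {l l' : List (Fin (K + 1))} (h : l.Perm l') :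
    ev v (l.map .y) = ev v (l'.map .y) := by
  unfold ev
  rw [List.map_map, List.map_map]
  refine (h.map _).prod_eq' ?_
  rw [List.pairwise_map]
  exact List.pairwise_iff_getElem.2 fun _ _ _ _ _ => r_yy M hv _ _

theorem slide_q (a : Nd) (l : List (Fin (K + 1))) :
    ev v (l.map .x) * v (.q a) = v (.q a) * ev v (l.map .y) := by
  induction l with
  | nil => simp [ev]
  | cons i l ih =>
    rw [List.map_cons, List.map_cons, ev_cons, ev_cons, mul_assoc, ih, ← mul_assoc,
      r_xq M hv, mul_assoc]

theorem slide_p (a : Nd) (l : List (Fin (K + 1))) (hl : M.q a ∉ l) :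
    ev v (l.map .x) * v (.p a) = v (.p a) * ev v (l.map .y) := by
  induction l with
  | nil => simp [ev]
  | cons i l ih =>
    simp only [List.mem_cons, not_or] at hl
    rw [List.map_cons, List.map_cons, ev_cons, ev_cons, mul_assoc, ih hl.2, ← mul_assoc,
      r_xp M hv a i (fun e => hl.1 e.symm), mul_assoc]

theorem h_ys (l : List (Fin (K + 1))) : v .h * ev v (l.map .y) = v .h := by
  induction l with
  | nil => simp [ev]
  | cons i l ih => rw [List.map_cons, ev_cons, ← mul_assoc, r_hy M hv, ih]

/-- A halting computation gives an equality. -/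
theorem der {a : Nd} {n : Fin (K + 1) → ℕ} (hh : M.Hlt a n) :
    ∀ l : List (Fin (K + 1)), Ct l n →
      v .L * (v (.q a) * (ev v (l.map .y) * v .R)) = v .L * (v .h * v .R) := by
  classical
  induction hh with
  | stop a n h =>
    intro l _
    rw [r_qh M hv a h, ← mul_assoc (v .h), h_ys M hv]
  | step a n h _ ih =>
    intro l hl
    rw [← mul_assoc (v .L), r_Lq M hv a h, mul_assoc]
    by_cases h0 : n (M.q a) = 0
    · -- the tested register is empty
      have hmem : M.q a ∉ l := by
        rw [← List.count_eq_zero, hl, h0]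
      rw [← mul_assoc (v (.p a)), ← slide_p M hv a l hmem, mul_assoc (ev v (l.map .x)),
        r_z M hv a h, ← mul_assoc (ev v (l.map .x)), slide_q M hv, mul_assoc (v (.q _)),
        ← mul_assoc (ev v (l.map .y)), ← ev_append, ← List.map_append]
      have e1 : M.ns a n = M.nx a true := by simp [AM.ns, h0]
      rw [← e1]
      refine ih _ ?_
      intro i
      rw [List.count_append, hl]
      simp only [AM.nr]
      by_cases hi : i = M.q a
      · subst hi
        rw [Function.update_self, h0]
        cases M.op a <;> simp [op0, Op.ap]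
      · rw [Function.update_of_ne hi]
        have : (op0 (M.op a) (M.q a)).count i = 0 := by
          rw [List.count_eq_zero]
          cases M.op a <;> simp [op0, hi]
        omega
    · have hmem : M.q a ∈ l := by
        by_contra hc
        rw [← List.count_eq_zero, hl] at hc
        exact h0 hc
      have hp : l.Perm (M.q a :: l.erase (M.q a)) := List.perm_cons_erase hmem
      rw [ys_perm M hv hp, List.map_cons, ev_cons, mul_assoc, ← mul_assoc (v (.p a)),
        r_nz M hv a h, mul_assoc (v (.q _)), ← mul_assoc (ev v _) (ev v _), ← ev_append,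
        ← List.map_append]
      have e1 : M.ns a n = M.nx a false := by simp [AM.ns, h0]
      rw [← e1]
      refine ih _ ?_
      intro i
      have hc := hp.count_eq i
      rw [hl] at hc
      rw [List.count_append]
      simp only [AM.nr]
      by_cases hi : i = M.q a
      · subst hi
        rw [Function.update_self]
        rw [List.count_cons_self] at hc
        have h2 := hl (M.q a)
        cases M.op a <;> simp [op1, Op.ap] <;> omega
      · rw [Function.update_of_ne hi]
        have : (op1 (M.op a) (M.q a)).count i = 0 := by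
          rw [List.count_eq_zero]
          cases M.op a <;> simp [op1, hi]
        rw [List.count_cons_of_ne (fun e => hi e.symm)] at hc
        omega

end der

end Pool.Agent.X227.EqM
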