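import Pool.Agent.X227.EqM.Alg

set_option autoImplicit false

/-!
# The quotient in which a non-halting computation gives an inequality
-/

namespace Pool.Agent.X227.EqM

open Pool.Agent.X238.Osr Matrix

universe u

/-- four vertices; only the first and the last may agree -/
structure Vx (ι : Type) where
  p0 : ι
  p1 : ι
  p2 : ι
  p3 : ι
  h02 : p0 ≠ p2
  h03 : p0 ≠ p3
  h12 : p1 ≠ p2
  h13 : p1 ≠ p3
  h23 : p2 ≠ p3

variable {F : Type u} [Field F] {Nd : Type} {K : ℕ} (M : AM Nd K)

section

variable {ι : Type} [DecidableEq ι] (V : Vx ι)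

/-- degrees in rows -/
def TR (Nd : Type) (K : ℕ) (i : ι) : Set (Dg Nd K) :=
  if i = V.p2 then {d | d.1 ≠ 0 ∨ d.2.2 = 0} else
  if i = V.p3 then {d | d.1 ≠ 0} else {d | d.1 ≠ 0 ∨ d = 0}

/-- degrees in columns -/
def TC (Nd : Type) (K : ℕ) (i : ι) : Set (Dg Nd K) :=
  if i = V.p3 then {d | d.1 ≠ 0 ∨ d.2.1 = 0} else
  if i = V.p2 then {d | d.1 ≠ 0} else {d | d.1 ≠ 0 ∨ d = 0}

theorem TR0 : TR V Nd K V.p0 = {d | d.1 ≠ 0 ∨ d = 0} := by
  rw [TR, if_neg V.h02, if_neg V.h03]

theorem TR1 : TR V Nd K V.p1 = {d | d.1 ≠ 0 ∨ d = 0} := by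
  rw [TR, if_neg V.h12, if_neg V.h13]

theorem TR2 : TR V Nd K V.p2 = {d | d.1 ≠ 0 ∨ d.2.2 = 0} := by
  rw [TR, if_pos rfl]

theorem TR3 : TR V Nd K V.p3 = {d | d.1 ≠ 0} := by
  rw [TR, if_neg V.h23.symm, if_pos rfl]

theorem TC0 : TC V Nd K V.p0 = {d | d.1 ≠ 0 ∨ d = 0} := by
  rw [TC, if_neg V.h03, if_neg V.h02]

theorem TC1 : TC V Nd K V.p1 = {d | d.1 ≠ 0 ∨ d = 0} := by
  rw [TC, if_neg V.h13, if_neg V.h12]

theorem TC2 : TC V Nd K V.p2 = {d | d.1 ≠ 0} := by
  rw [TC, if_neg V.h23, if_pos rfl]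

theorem TC3 : TC V Nd K V.p3 = {d | d.1 ≠ 0 ∨ d.2.1 = 0} := by
  rw [TC, if_pos rfl]

end

variable {ι : Type} [Fintype ι] [DecidableEq ι] (V : Vx ι)

omit [Fintype ι] in
theorem vecMul_sg [Fintype ι] {P : Type u} [CommRing P] (w : ι → P) (i j k : ι) (c : P) :
    (w ᵥ* Matrix.single i j c) k = if k = j then w i * c else 0 := by
  simp only [vecMul, dotProduct, Matrix.single_apply]
  rw [Finset.sum_eq_single i]
  · by_cases h : k = j
    · simp [h]
    · have : ¬ j = k := fun e => h e.symm
      simp [h, this]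
  · intro b _ hb
    have : ¬ i = b := fun e => hb e.symm
    simp [this]
  · intro h
    exact absurd (Finset.mem_univ _) h

omit [Fintype ι] in
theorem mulVec_sg [Fintype ι] {P : Type u} [CommRing P] (w : ι → P) (i j k : ι) (c : P) :
    (Matrix.single i j c *ᵥ w) k = if k = i then w j * c else 0 := by
  simp only [mulVec, dotProduct, Matrix.single_apply]
  rw [Finset.sum_eq_single j]
  · by_cases h : k = i
    · simp [h, mul_comm]
    · have : ¬ i = k := fun e => h e.symm
      simp [h, this]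
  · intro b _ hb
    have : ¬ j = b := fun e => hb e.symm
    simp [this]
  · intro h
    exact absurd (Finset.mem_univ _) h

variable (F Nd K) in
/-- the algebra of matrices -/
noncomputable def Ua : Subalgebra F (Matrix ι ι (Pl F Nd K)) :=
  stR (fun i => Sp F (TR V Nd K i)) ⊓ stL (fun i => Sp F (TC V Nd K i))

theorem single_mem {i j : ι} {d : Dg Nd K} (h1 : ∀ e ∈ TR V Nd K i, e + d ∈ TR V Nd K j)
    (h2 : ∀ e ∈ TC V Nd K j, e + d ∈ TC V Nd K i) :
    Matrix.single i j (mon F d) ∈ Ua F Nd K V := by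
  constructor
  · intro w hw k
    rw [vecMul_sg]
    split_ifs with hk
    · subst hk
      exact Sp_mul h1 (hw i)
    · exact Submodule.zero_mem _
  · intro w hw k
    rw [mulVec_sg]
    split_ifs with hk
    · subst hk
      exact Sp_mul h2 (hw j)
    · exact Submodule.zero_mem _

/-- source -/
def src : Gn Nd K → ι
  | .L => V.p0
  | .R => V.p3
  | .h => V.p2
  | .x _ => V.p2
  | .y _ => V.p3
  | .q _ => V.p2
  | .p _ => V.p2

/-- target -/
def tgt : Gn Nd K → ι
  | .L => V.p2
  | .R => V.p1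
  | .h => V.p3
  | .x _ => V.p2
  | .y _ => V.p3
  | .q _ => V.p3
  | .p _ => V.p3

/-- weight -/
noncomputable def wt : Gn Nd K → Dg Nd K
  | .L => 0
  | .R => 0
  | .h => (Pi.single .h 1, 0, 0)
  | .x i => (0, Pi.single i 1, 0)
  | .y i => (0, 0, Pi.single i 1)
  | .q a => (Pi.single (.q a) 1, 0, 0)
  | .p a => (Pi.single (.p a) 1, 0, 0)

variable (F) in
/-- the matrices -/
noncomputable def gm (g : Gn Nd K) : Matrix ι ι (Pl F Nd K) :=
  Matrix.single (src V g) (tgt V g) (mon F (wt g))

theorem ps_ne (s : Sx Nd) (c : Sx Nd → ℕ) : c + Pi.single s 1 ≠ 0 := by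
  classical
  intro h
  have := congrFun h s
  simp at this

theorem add_ne (c c' : Sx Nd → ℕ) (h : c ≠ 0) : c + c' ≠ 0 := by
  intro e
  apply h
  funext s
  have := congrFun e s
  simp only [Pi.add_apply, Pi.zero_apply] at this
  simp only [Pi.zero_apply]
  omega

theorem gm_mem (g : Gn Nd K) : gm F V g ∈ Ua F Nd K V := by
  classical
  unfold gm
  cases g with
  | L =>
    refine single_mem V ?_ ?_
    · intro e he
      change e ∈ TR V Nd K V.p0 at he
      change e + 0 ∈ TR V Nd K V.p2
      rw [TR0] at he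
      rw [TR2, add_zero]
      rcases he with he | rfl
      · exact .inl he
      · exact .inr rfl
    · intro e he
      change e ∈ TC V Nd K V.p2 at he
      change e + 0 ∈ TC V Nd K V.p0
      rw [TC2] at he
      rw [TC0, add_zero]
      exact .inl he
  | R =>
    refine single_mem V ?_ ?_
    · intro e he
      change e ∈ TR V Nd K V.p3 at he
      change e + 0 ∈ TR V Nd K V.p1
      rw [TR3] at he
      rw [TR1, add_zero]
      exact .inl he
    · intro e he
      change e ∈ TC V Nd K V.p1 at he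
      change e + 0 ∈ TC V Nd K V.p3
      rw [TC1] at he
      rw [TC3, add_zero]
      rcases he with he | rfl
      · exact .inl he
      · exact .inr rfl
  | x i =>
    refine single_mem V ?_ ?_
    · intro e he
      change e ∈ TR V Nd K V.p2 at he
      change e + (0, Pi.single i 1, 0) ∈ TR V Nd K V.p2
      rw [TR2] at he ⊢
      rcases he with he | he
      · exact .inl (add_ne _ _ he)
      · right
        change e.2.2 + 0 = 0
        rw [he, add_zero]
    · intro e he
      change e ∈ TC V Nd K V.p2 at he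
      change e + (0, Pi.single i 1, 0) ∈ TC V Nd K V.p2
      rw [TC2] at he ⊢
      exact add_ne _ _ he
  | y i =>
    refine single_mem V ?_ ?_
    · intro e he
      change e ∈ TR V Nd K V.p3 at he
      change e + (0, 0, Pi.single i 1) ∈ TR V Nd K V.p3
      rw [TR3] at he ⊢
      exact add_ne _ _ he
    · intro e he
      change e ∈ TC V Nd K V.p3 at he
      change e + (0, 0, Pi.single i 1) ∈ TC V Nd K V.p3
      rw [TC3] at he ⊢
      rcases he with he | he
      · exact .inl (add_ne _ _ he)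
      · right
        change e.2.1 + 0 = 0
        rw [he, add_zero]
  | h =>
    refine single_mem V ?_ ?_
    · intro e _
      change e + (Pi.single .h 1, 0, 0) ∈ TR V Nd K V.p3
      rw [TR3]
      exact ps_ne _ _
    · intro e _
      change e + (Pi.single .h 1, 0, 0) ∈ TC V Nd K V.p2
      rw [TC2]
      exact ps_ne _ _
  | q a =>
    refine single_mem V ?_ ?_
    · intro e _
      change e + (Pi.single (.q a) 1, 0, 0) ∈ TR V Nd K V.p3
      rw [TR3]
      exact ps_ne _ _
    · intro e _
      change e + (Pi.single (.q a) 1, 0, 0) ∈ TC V Nd K V.p2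
      rw [TC2]
      exact ps_ne _ _
  | p a =>
    refine single_mem V ?_ ?_
    · intro e _
      change e + (Pi.single (.p a) 1, 0, 0) ∈ TR V Nd K V.p3
      rw [TR3]
      exact ps_ne _ _
    · intro e _
      change e + (Pi.single (.p a) 1, 0, 0) ∈ TC V Nd K V.p2
      rw [TC2]
      exact ps_ne _ _

variable (F) in
/-- the syntactic congruence -/
noncomputable def sc : RingCon (Ua F Nd K V) where
  r a b := ∀ u v : Ua F Nd K V, Ph F M ((u.1 * a.1 * v.1) V.p0 V.p1) =
    Ph F M ((u.1 * b.1 * v.1) V.p0 V.p1)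
  iseqv := {
    refl := fun _ _ _ => rfl
    symm := fun h u v => (h u v).symm
    trans := fun h h' u v => (h u v).trans (h' u v) }
  mul' {w x y z} h1 h2 u v := by
    have e1 := h1 u (y * v)
    have e2 := h2 (u * x) v
    have a1 : u.1 * (w * y : Ua F Nd K V).1 * v.1 = u.1 * w.1 * (y * v : Ua F Nd K V).1 := by
      simp only [Subalgebra.coe_mul, mul_assoc]
    have a2 : u.1 * x.1 * (y * v : Ua F Nd K V).1 = (u * x : Ua F Nd K V).1 * y.1 * v.1 := by
      simp only [Subalgebra.coe_mul, mul_assoc]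
    have a3 : (u * x : Ua F Nd K V).1 * z.1 * v.1 = u.1 * (x * z : Ua F Nd K V).1 * v.1 := by
      simp only [Subalgebra.coe_mul, mul_assoc]
    rw [a1, e1, a2, e2, a3]
  add' {w x y z} h1 h2 u v := by
    simp only [Subalgebra.coe_add, mul_add, add_mul, Matrix.add_apply, map_add]
    rw [h1 u v, h2 u v]

variable (F) in
/-- the quotient -/
def Qa : Type u := (sc F M V).Quotient

noncomputable instance : Ring (Qa F M V) := inferInstanceAs (Ring (sc F M V).Quotient)

noncomputable instance : Algebra F (Qa F M V) :=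
  inferInstanceAs (Algebra F (sc F M V).Quotient)

variable (F) in
/-- the projection -/
noncomputable def mq : Ua F Nd K V →ₐ[F] Qa F M V := (sc F M V).mkₐ (α := F)

theorem mq_eq {a b : Ua F Nd K V} : mq F M V a = mq F M V b ↔
    ∀ u v : Ua F Nd K V, Ph F M ((u.1 * a.1 * v.1) V.p0 V.p1) =
      Ph F M ((u.1 * b.1 * v.1) V.p0 V.p1) :=
  RingCon.eq (sc F M V)

variable (F) in
/-- the classes of the matrices -/
noncomputable def gv (g : Gn Nd K) : Qa F M V := mq F M V ⟨gm F V g, gm_mem V g⟩

theorem row_mem (u : Ua F Nd K V) (i : ι) : u.1 V.p0 i ∈ Sp F (TR V Nd K i) := by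
  have h := u.2.1 (Pi.single V.p0 1) (fun j => by
    by_cases hj : j = V.p0
    · subst hj
      rw [Pi.single_eq_same, ← mon_zero]
      refine mon_mem ?_
      rw [TR0]
      exact .inr rfl
    · rw [Pi.single_eq_of_ne hj]
      exact Submodule.zero_mem _) i
  rwa [single_one_vecMul] at h

theorem col_mem (v : Ua F Nd K V) (i : ι) : v.1 i V.p1 ∈ Sp F (TC V Nd K i) := by
  have h := v.2.2 (Pi.single V.p1 1) (fun j => by
    by_cases hj : j = V.p1
    · subst hj
      rw [Pi.single_eq_same, ← mon_zero]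
      refine mon_mem ?_
      rw [TC1]
      exact .inr rfl
    · rw [Pi.single_eq_of_ne hj]
      exact Submodule.zero_mem _) i
  rwa [mulVec_single_one] at h

theorem entry (u v : Matrix ι ι (Pl F Nd K)) (i j a b : ι) (c : Pl F Nd K) :
    (u * Matrix.single i j c * v) a b = u a i * c * v j b := by
  rw [Matrix.mul_apply, Finset.sum_eq_single j]
  · rw [mul_single_apply_same]
  · intro k _ hk
    rw [mul_single_apply_of_ne _ _ _ _ _ hk, zero_mul]
  · intro h
    exact absurd (Finset.mem_univ _) h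

/-- matrices with the same class -/
theorem same {i j : ι} {d1 d2 : Dg Nd K}
    (h : ∀ e ∈ TR V Nd K i, ∀ e' ∈ TC V Nd K j,
      (good M (e + d1 + e') ↔ good M (e + d2 + e')))
    {a b : Ua F Nd K V} (ha : a.1 = Matrix.single i j (mon F d1))
    (hb : b.1 = Matrix.single i j (mon F d2)) :
    mq F M V a = mq F M V b := by
  refine (mq_eq M V).2 ?_
  intro u v
  rw [ha, hb, entry, entry]
  exact Ph_congr M h (row_mem V u i) (col_mem V v j)

end Pool.Agent.X227.EqM
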