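import Pool.Agent.X227.EqM.Quo

set_option autoImplicit false

/-!
# The relations hold in the quotient
-/

namespace Pool.Agent.X227.EqM

open Pool.Agent.X238.Osr Matrix

universe u

variable {F : Type u} [Field F] {Nd : Type} {K : ℕ} (M : AM Nd K)

/-- content of a list -/
def cl (l : List (Fin (K + 1))) : Fin (K + 1) → ℕ := fun i => l.count i

theorem cl_nil : cl ([] : List (Fin (K + 1))) = 0 := rfl

theorem cl_cons (j : Fin (K + 1)) (l : List (Fin (K + 1))) :
    cl (j :: l) = Pi.single j 1 + cl l := by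
  funext i
  simp only [cl, Pi.add_apply]
  by_cases h : i = j
  · subst h
    rw [List.count_cons_self, Pi.single_eq_same]
    omega
  · rw [List.count_cons_of_ne (fun e => h e.symm), Pi.single_eq_of_ne h, zero_add]

theorem single_split {c c' : Sx Nd → ℕ} {s t : Sx Nd}
    (h : c + Pi.single s 1 + c' = Pi.single t 1) : c = 0 ∧ c' = 0 ∧ s = t := by
  have hs := congrFun h s
  simp only [Pi.add_apply, Pi.single_eq_same] at hs
  have hst : s = t := by
    by_contra hne
    rw [Pi.single_eq_of_ne hne] at hs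
    omega
  subst hst
  have key : ∀ r, c r = 0 ∧ c' r = 0 := by
    intro r
    have hr := congrFun h r
    simp only [Pi.add_apply] at hr
    omega
  exact ⟨funext fun r => (key r).1, funext fun r => (key r).2, rfl⟩

theorem good_iff {e e' : Dg Nd K} {s : Sx Nd} {n m : Fin (K + 1) → ℕ} :
    good M (e + (Pi.single s 1, n, m) + e') ↔
      e.1 = 0 ∧ e'.1 = 0 ∧ Gd M s (e.2.1 + n + e'.2.1) (e.2.2 + m + e'.2.2) := by
  constructor
  · rintro ⟨t, h1, h2⟩
    obtain ⟨a, b, rfl⟩ := single_split (c := e.1) (c' := e'.1) (s := s) (t := t) h1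
    exact ⟨a, b, h2⟩
  · rintro ⟨a, b, h⟩
    refine ⟨s, ?_, h⟩
    change e.1 + Pi.single s 1 + e'.1 = _
    rw [a, b, zero_add, add_zero]

theorem good_congr {e e' : Dg Nd K} {s t : Sx Nd} {n m n' m' : Fin (K + 1) → ℕ}
    (h : e.1 = 0 → e'.1 = 0 → (Gd M s (e.2.1 + n + e'.2.1) (e.2.2 + m + e'.2.2) ↔
      Gd M t (e.2.1 + n' + e'.2.1) (e.2.2 + m' + e'.2.2))) :
    good M (e + (Pi.single s 1, n, m) + e') ↔ good M (e + (Pi.single t 1, n', m') + e') := by
  rw [good_iff, good_iff]
  constructor
  · rintro ⟨a, b, c⟩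
    exact ⟨a, b, (h a b).1 c⟩
  · rintro ⟨a, b, c⟩
    exact ⟨a, b, (h a b).2 c⟩

/-! ### words of matrices -/

variable {ι : Type} [Fintype ι] [DecidableEq ι] (V : Vx ι)

theorem sg_mul (i j k : ι) (d e : Dg Nd K) :
    Matrix.single i j (mon F d) * Matrix.single j k (mon F e) =
      Matrix.single i k (mon F (d + e)) := by
  rw [single_mul_single_same, mon_mul]

theorem ys_mul (i : ι) (d : Dg Nd K) (l : List (Fin (K + 1))) :
    Matrix.single i V.p3 (mon F d) * ev (gm F V) (l.map .y) =
      Matrix.single i V.p3 (mon F (d + (0, 0, cl l))) := by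
  induction l generalizing d with
  | nil =>
    rw [List.map_nil, ev_nil, mul_one, cl_nil]
    congr 2
  | cons j l ih =>
    rw [List.map_cons, ev_cons, ← mul_assoc]
    have : gm F V (.y j) = Matrix.single V.p3 V.p3 (mon F ((0, 0, Pi.single j 1) : Dg Nd K)) := rfl
    rw [this, sg_mul, ih, cl_cons]
    congr 2
    rw [add_assoc]
    congr 1

variable (F) in
/-- the generators in the algebra of matrices -/
noncomputable def gu (g : Gn Nd K) : Ua F Nd K V := ⟨gm F V g, gm_mem V g⟩

theorem ev_gu (w : List (Gn Nd K)) : (ev (gu F V) w : Ua F Nd K V).1 = ev (gm F V) w := by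
  induction w with
  | nil => rfl
  | cons g w ih => rw [ev_cons, ev_cons, Subalgebra.coe_mul, ih]; rfl

theorem ev_gv (w : List (Gn Nd K)) :
    ev (gv F M V) w = mq F M V (ev (gu F V) w) := by
  induction w with
  | nil => rw [ev_nil, ev_nil, map_one]
  | cons g w ih => rw [ev_cons, ev_cons, map_mul, ih]; rfl

theorem ev_same {w1 w2 : List (Gn Nd K)} {i j : ι} {d1 d2 : Dg Nd K}
    (h1 : ev (gm F V) w1 = Matrix.single i j (mon F d1))
    (h2 : ev (gm F V) w2 = Matrix.single i j (mon F d2))
    (h : ∀ e ∈ TR V Nd K i, ∀ e' ∈ TC V Nd K j,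
      (good M (e + d1 + e') ↔ good M (e + d2 + e'))) :
    ev (gv F M V) w1 = ev (gv F M V) w2 := by
  rw [ev_gv, ev_gv]
  exact same M V h (by rw [ev_gu, h1]) (by rw [ev_gu, h2])

theorem gm_L : gm F V (.L : Gn Nd K) = Matrix.single V.p0 V.p2 (mon F 0) := rfl
theorem gm_R : gm F V (.R : Gn Nd K) = Matrix.single V.p3 V.p1 (mon F 0) := rfl
theorem gm_h : gm F V (.h : Gn Nd K) = Matrix.single V.p2 V.p3 (mon F (Pi.single .h 1, 0, 0)) := rfl
theorem gm_x (i : Fin (K + 1)) : gm F V (.x i : Gn Nd K) =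
    Matrix.single V.p2 V.p2 (mon F (0, Pi.single i 1, 0)) := rfl
theorem gm_y (i : Fin (K + 1)) : gm F V (.y i : Gn Nd K) =
    Matrix.single V.p3 V.p3 (mon F (0, 0, Pi.single i 1)) := rfl
theorem gm_q (a : Nd) : gm F V (.q a : Gn Nd K) =
    Matrix.single V.p2 V.p3 (mon F (Pi.single (.q a) 1, 0, 0)) := rfl
theorem gm_p (a : Nd) : gm F V (.p a : Gn Nd K) =
    Matrix.single V.p2 V.p3 (mon F (Pi.single (.p a) 1, 0, 0)) := rfl

theorem nr_one (a : Nd) (m : Fin (K + 1) → ℕ) :
    M.nr a (Pi.single (M.q a) 1 + m) = cl (op1 (M.op a) (M.q a)) + m := by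
  funext i
  simp only [AM.nr, Pi.add_apply, Pi.single_eq_same]
  by_cases h : i = M.q a
  · subst h
    rw [Function.update_self]
    cases M.op a <;> simp [op1, Op.ap, cl] <;> omega
  · rw [Function.update_of_ne h]
    simp only [Pi.add_apply, Pi.single_eq_of_ne h, zero_add]
    have : cl (op1 (M.op a) (M.q a)) i = 0 := by
      unfold cl
      rw [List.count_eq_zero]
      cases M.op a <;> simp [op1, h]
    omega

theorem nr_zero (a : Nd) : M.nr a 0 = cl (op0 (M.op a) (M.q a)) := by
  funext i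
  simp only [AM.nr, Pi.zero_apply]
  by_cases h : i = M.q a
  · subst h
    rw [Function.update_self]
    cases M.op a <;> simp [op0, Op.ap, cl]
  · rw [Function.update_of_ne h]
    have : cl (op0 (M.op a) (M.q a)) i = 0 := by
      unfold cl
      rw [List.count_eq_zero]
      cases M.op a <;> simp [op0, h]
    rw [this]
    rfl

theorem hlt_step {a : Nd} (h : M.hl a = false) (n : Fin (K + 1) → ℕ) :
    M.Hlt a n ↔ M.Hlt (M.ns a n) (M.nr a n) := by
  constructor
  · intro hh
    cases hh with
    | stop _ _ h' => rw [h] at h'; cases h'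
    | step _ _ _ h' => exact h'
  · exact .step a n h

/-- The relations hold. -/
theorem gv_rels : ∀ w ∈ rels M, ev (gv F M V) w.1 = ev (gv F M V) w.2 := by
  intro w hw
  simp only [rels, Set.mem_union, Set.mem_range, Set.mem_image] at hw
  rcases hw with ⟨⟨a, i⟩, rfl⟩ | ⟨⟨i, j⟩, rfl⟩ | ⟨a, ha, rfl⟩ | ⟨⟨a, i⟩, hi, rfl⟩ | ⟨a, ha, rfl⟩ |
    ⟨a, ha, rfl⟩ | ⟨a, ha, rfl⟩ | ⟨i, rfl⟩
  · -- x q = q y
    refine ev_same M V (i := V.p2) (j := V.p3) (d1 := (Pi.single (.q a) 1, Pi.single i 1, 0))
      (d2 := (Pi.single (.q a) 1, 0, Pi.single i 1)) ?_ ?_ ?_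
    · simp only [ev_cons, ev_nil, mul_one]
      rw [gm_x, gm_q, sg_mul]
      congr 2
      simp
    · simp only [ev_cons, ev_nil, mul_one]
      rw [gm_y, gm_q, sg_mul]
      congr 2
      simp
    · intro e _ e' _
      refine good_congr M fun _ _ => ?_
      simp only [Gd]
      rw [show e.2.1 + Pi.single i 1 + e'.2.1 + (e.2.2 + 0 + e'.2.2) =
        e.2.1 + 0 + e'.2.1 + (e.2.2 + Pi.single i 1 + e'.2.2) by
          funext k; simp only [Pi.add_apply, Pi.zero_apply]; omega]
  · -- y y = y y
    have : ev (gm F V) [(.y i : Gn Nd K), .y j] = ev (gm F V) [.y j, .y i] := by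
      simp only [ev_cons, ev_nil, mul_one]
      rw [gm_y, gm_y, sg_mul, sg_mul,
        add_comm ((0, 0, Pi.single i 1) : Dg Nd K) ((0, 0, Pi.single j 1) : Dg Nd K)]
    change ev (gv F M V) [.y i, .y j] = ev (gv F M V) [.y j, .y i]
    rw [ev_gv, ev_gv]
    congr 1
    apply Subtype.ext
    rw [ev_gu, ev_gu, this]
  · -- L q = L p
    refine ev_same M V (i := V.p0) (j := V.p3) (d1 := (Pi.single (.q a) 1, 0, 0))
      (d2 := (Pi.single (.p a) 1, 0, 0)) ?_ ?_ ?_
    · simp only [ev_cons, ev_nil, mul_one]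
      rw [gm_L, gm_q, sg_mul, zero_add]
    · simp only [ev_cons, ev_nil, mul_one]
      rw [gm_L, gm_p, sg_mul, zero_add]
    · intro e he e' he'
      refine good_congr M fun h0 h1 => ?_
      rw [TR0] at he
      rw [TC3] at he'
      have he0 : e = 0 := by
        rcases he with he | he
        · exact absurd h0 he
        · exact he
      have he1 : e'.2.1 = 0 := by
        rcases he' with he' | he'
        · exact absurd h1 he'
        · exact he'
      subst he0
      rw [he1]
      simp only [Gd]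
      rw [show ((0 : Dg Nd K).2.1 + 0 + 0 : Fin (K + 1) → ℕ) = 0 by rfl,
        show (0 : Dg Nd K).2.2 + 0 + e'.2.2 = e'.2.2 by funext k; simp, zero_add, zero_add]
      exact hlt_step M ha _
  · -- x p = p y
    refine ev_same M V (i := V.p2) (j := V.p3) (d1 := (Pi.single (.p a) 1, Pi.single i 1, 0))
      (d2 := (Pi.single (.p a) 1, 0, Pi.single i 1)) ?_ ?_ ?_
    · simp only [ev_cons, ev_nil, mul_one]
      rw [gm_x, gm_p, sg_mul]
      congr 2
      simp
    · simp only [ev_cons, ev_nil, mul_one]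
      rw [gm_y, gm_p, sg_mul]
      congr 2
      simp
    · intro e _ e' _
      refine good_congr M fun _ _ => ?_
      simp only [Gd]
      have hi' : (M.q a) ≠ i := fun e => hi e.symm
      have e1 : (e.2.2 + 0 + e'.2.2 : Fin (K + 1) → ℕ) (M.q a) =
          (e.2.2 + Pi.single i 1 + e'.2.2 : Fin (K + 1) → ℕ) (M.q a) := by
        simp only [Pi.add_apply, Pi.zero_apply, Pi.single_eq_of_ne hi']
      have e2 : M.ns a (e.2.2 + 0 + e'.2.2) = M.ns a (e.2.2 + Pi.single i 1 + e'.2.2) := by
        simp only [AM.ns, e1]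
      rw [e2]
      have e3 : e.2.1 + Pi.single i 1 + e'.2.1 + M.nr a (e.2.2 + 0 + e'.2.2) =
          e.2.1 + 0 + e'.2.1 + M.nr a (e.2.2 + Pi.single i 1 + e'.2.2) := by
        funext k
        simp only [AM.nr, e1]
        simp only [Pi.add_apply, Pi.zero_apply]
        by_cases hk : k = M.q a
        · subst hk
          simp only [Function.update_self, Pi.single_eq_of_ne hi']
        · simp only [Function.update_of_ne hk, Pi.add_apply, Pi.zero_apply]
          omega
      rw [e3]
  · -- p y = q y y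
    refine ev_same M V (i := V.p2) (j := V.p3)
      (d1 := (Pi.single (.p a) 1, 0, Pi.single (M.q a) 1))
      (d2 := (Pi.single (.q (M.nx a false)) 1, 0, cl (op1 (M.op a) (M.q a)))) ?_ ?_ ?_
    · simp only [ev_cons, ev_nil, mul_one]
      rw [gm_p, gm_y, sg_mul]
      congr 2
      simp
    · simp only
      rw [ev_cons, gm_q, ys_mul]
      congr 2
      simp
    · intro e he e' he'
      refine good_congr M fun h0 h1 => ?_
      rw [TR2] at he
      have he0 : e.2.2 = 0 := by
        rcases he with he | he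
        · exact absurd h0 he
        · exact he
      rw [he0, zero_add, zero_add]
      simp only [Gd]
      rw [nr_one]
      have : M.ns a (Pi.single (M.q a) 1 + e'.2.2) = M.nx a false := by
        simp [AM.ns]
      rw [this]
  · -- p R = q y R
    refine ev_same M V (i := V.p2) (j := V.p1) (d1 := (Pi.single (.p a) 1, 0, 0))
      (d2 := (Pi.single (.q (M.nx a true)) 1, 0, cl (op0 (M.op a) (M.q a)))) ?_ ?_ ?_
    · simp only [ev_cons, ev_nil, mul_one]
      rw [gm_p, gm_R, sg_mul, add_zero]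
    · simp only
      rw [ev_cons, gm_q, ev_append, ← mul_assoc, ys_mul, ev_cons, ev_nil, mul_one, gm_R, sg_mul,
        add_zero]
      congr 2
      simp
    · intro e he e' he'
      refine good_congr M fun h0 h1 => ?_
      rw [TR2] at he
      rw [TC1] at he'
      have he0 : e.2.2 = 0 := by
        rcases he with he | he
        · exact absurd h0 he
        · exact he
      have he1 : e' = 0 := by
        rcases he' with he' | he'
        · exact absurd h1 he'
        · exact he'
      subst he1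
      rw [he0]
      simp only [Gd]
      rw [show ((0 : Fin (K + 1) → ℕ) + 0 + (0 : Dg Nd K).2.2) = 0 by rfl, nr_zero]
      have : M.ns a 0 = M.nx a true := by
        simp [AM.ns]
      rw [this]
      rw [show (0 : Fin (K + 1) → ℕ) + cl (op0 (M.op a) (M.q a)) + (0 : Dg Nd K).2.2 =
        cl (op0 (M.op a) (M.q a)) by funext k; simp]
  · -- q = h
    refine ev_same M V (i := V.p2) (j := V.p3) (d1 := (Pi.single (.q a) 1, 0, 0))
      (d2 := (Pi.single .h 1, 0, 0)) ?_ ?_ ?_
    · simp only [ev_cons, ev_nil, mul_one]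
      rw [gm_q]
    · simp only [ev_cons, ev_nil, mul_one]
      rw [gm_h]
    · intro e _ e' _
      refine good_congr M fun _ _ => ?_
      simp only [Gd, iff_true]
      exact .stop _ _ ha
  · -- h y = h
    refine ev_same M V (i := V.p2) (j := V.p3) (d1 := (Pi.single .h 1, 0, Pi.single i 1))
      (d2 := (Pi.single .h 1, 0, 0)) ?_ ?_ ?_
    · simp only [ev_cons, ev_nil, mul_one]
      rw [gm_h, gm_y, sg_mul]
      congr 2
      simp
    · simp only [ev_cons, ev_nil, mul_one]
      rw [gm_h]
    · intro e _ e' _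
      refine good_congr M fun _ _ => ?_
      simp only [Gd]

/-- A non-halting computation gives an inequality. -/
theorem gv_ne {a : Nd} {l : List (Fin (K + 1))} (h : ¬ M.Hlt a (cl l)) :
    ev (gv F M V) (.L :: .q a :: (l.map .y ++ [.R])) ≠ ev (gv F M V) [.L, .h, .R] := by
  classical
  intro he
  rw [ev_gv, ev_gv] at he
  have he' := (mq_eq M V).1 he
  have h1 := he' 1 1
  rw [ev_gu, ev_gu] at h1
  simp only [Subalgebra.coe_one, one_mul, mul_one] at h1
  have e1 : ev (gm F V) (.L :: .q a :: (l.map .y ++ [.R])) =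
      Matrix.single V.p0 V.p1 (mon F (Pi.single (.q a) 1, 0, cl l)) := by
    rw [ev_cons, ev_cons, ev_append, ev_cons, ev_nil, mul_one, gm_L, gm_q, gm_R, ← mul_assoc,
      ← mul_assoc, sg_mul, ys_mul, sg_mul, add_zero]
    congr 2
    simp
  have e2 : ev (gm F V) [(.L : Gn Nd K), .h, .R] =
      Matrix.single V.p0 V.p1 (mon F (Pi.single .h 1, 0, 0)) := by
    simp only [ev_cons, ev_nil, mul_one]
    rw [gm_L, gm_h, gm_R, sg_mul, sg_mul, add_zero, zero_add]
  rw [e1, e2, Matrix.single_apply_same, Matrix.single_apply_same, Ph_mon, Ph_mon] at h1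
  have g1 : ¬ good M ((Pi.single (.q a) 1, 0, cl l) : Dg Nd K) := by
    intro hg
    have := (good_iff M (e := 0) (e' := 0) (s := .q a) (n := 0) (m := cl l)).1
      (by rw [add_zero, zero_add]; exact hg)
    have h3 := this.2.2
    simp only [Gd] at h3
    apply h
    convert h3 using 1
    funext k
    simp
  have g2 : good M ((Pi.single .h 1, 0, 0) : Dg Nd K) := ⟨.h, rfl, trivial⟩
  rw [if_neg g1, if_pos g2] at h1
  exact zero_ne_one h1

end Pool.Agent.X227.EqM
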